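import Pool.Agent.K7.H66.ML.Assemble
import Pool.Agent.K7.H66.ML.DiffField
import Pool.Agent.K7.H69.ML.GPI

namespace Pool.Agent.Results.MP_4b1745_al.Existence

open Pool.Agent.Results.MP_4b1745_al.OneVariable

/-- **Algebraically closed associative algebras exist.**  There are a field `P` and a nonzero
associative `P`-algebra `R` (in fact a division ring of characteristic zero) such that every
equation `f = 0`, where `f` lies in the free product `R * P⟨x_0, x_1, …⟩` and is not an element
of `R`, has a solution in `R`. -/
theorem result :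
    ∃ (P : Type) (R : Type) (_ : Field P) (_ : DivisionRing R) (_ : Algebra P R),
      CharZero R ∧ AlgClosedIn P R ℕ := by
  obtain ⟨S, _, _, d1, d2, hD⟩ := Pool.Agent.K7.H66.ML.exists_dc
  obtain ⟨P, R, hP, hR, hA, h⟩ := Pool.Agent.K7.H66.ML.main_of d1 d2 hD
    (fun P R _ _ _ _ hc hinf f hf => Pool.Agent.K7.H69.ML.gpi hc hinf f hf)
  exact ⟨P, R, hP, hR, hA, h⟩

end Pool.Agent.Results.MP_4b1745_al.Existence
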